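import Pool.Agent.Helper3_Semi.Core

/-!
# MP_be984c_lc: analytic partitions of the reals into additive semigroups

If `ℝ` is partitioned into additive semigroups and the induced equivalence relation is analytic,
then there are at most three pieces or exactly continuum many.  In particular, when `𝔠 = ℵ₂`
there is no such partition with `ℵ₁` pieces (whether or not the pieces are Borel).
-/

open Set Cardinal MeasureTheory

namespace Pool.Agent.Results.MP_be984c_lc.AnalyticPartition

/-- A family `A` of sets is a partition of `ℝ` into (nonempty) additive semigroups. -/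
structure IsSemigroupPartition {ι : Type} (A : ι → Set ℝ) : Prop where
  nonempty : ∀ i, (A i).Nonempty
  add_mem : ∀ i, ∀ x ∈ A i, ∀ y ∈ A i, x + y ∈ A i
  disjoint : ∀ i j, i ≠ j → Disjoint (A i) (A j)
  cover : ⋃ i, A i = Set.univ

/-- The equivalence relation induced by the family `A`, as a subset of the plane. -/
def inducedRel {ι : Type} (A : ι → Set ℝ) : Set (ℝ × ℝ) :=
  {p | ∃ i, p.1 ∈ A i ∧ p.2 ∈ A i}

/-- A partition of `ℝ` into additive semigroups whose induced equivalence relation is analytic has
at most three pieces or exactly continuum many pieces. -/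
theorem result (ι : Type) (A : ι → Set ℝ) (hA : IsSemigroupPartition A)
    (hE : AnalyticSet (inducedRel A)) : #ι ≤ 3 ∨ #ι = 𝔠 := by
  have hex : ∀ x : ℝ, ∃ i, x ∈ A i := by
    intro x
    have : x ∈ ⋃ i, A i := by rw [hA.cover]; trivial
    exact mem_iUnion.1 this
  choose c hc using hex
  have huniq : ∀ x i, x ∈ A i → c x = i := by
    intro x i hx
    by_contra hne
    exact (disjoint_left.1 (hA.disjoint _ _ hne)) (hc x) hx
  have hsurj : Function.Surjective c := by
    intro i
    obtain ⟨x, hx⟩ := hA.nonempty i
    exact ⟨x, huniq x i hx⟩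
  have hadd : ∀ x y, c x = c y → c (x + y) = c x := by
    intro x y hxy
    apply huniq
    apply hA.add_mem _ x (hc x) y
    rw [hxy]
    exact hc y
  have hrel : inducedRel A = {p : ℝ × ℝ | c p.1 = c p.2} := by
    ext p
    constructor
    · rintro ⟨i, h1, h2⟩
      change c p.1 = c p.2
      rw [huniq _ _ h1, huniq _ _ h2]
    · intro h
      refine ⟨c p.1, hc _, ?_⟩
      have h' : c p.1 = c p.2 := h
      rw [h']
      exact hc _
  rw [hrel] at hE
  have hub : #ι ≤ 𝔠 := by
    have h1 := Cardinal.mk_le_of_surjective hsurj
    rwa [Cardinal.mk_real] at h1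
  have hcont : (∃ g : (ℕ → Bool) → ℝ, ∀ a b, a ≠ b → c (g a) ≠ c (g b)) → #ι = 𝔠 := by
    rintro ⟨g, hg⟩
    apply le_antisymm hub
    have hinj : Function.Injective (fun a => c (g a)) := by
      intro a b hab
      by_contra hne
      exact hg a b hne hab
    have h1 := Cardinal.mk_le_of_injective hinj
    have h2 : #(ℕ → Bool) = 𝔠 := by simp
    rwa [h2] at h1
  rcases Semi.core hadd hE with ⟨i, hi⟩ | h
  · have hadd' : ∀ x y, c (-x) = c (-y) → c (-(x + y)) = c (-x) := by
      intro x y hxy
      rw [neg_add]
      exact hadd _ _ hxy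
    have hE' : AnalyticSet {p : ℝ × ℝ | c (-p.1) = c (-p.2)} := by
      exact hE.preimage (f := fun p : ℝ × ℝ => (-p.1, -p.2)) (by fun_prop)
    rcases Semi.core (c := fun x => c (-x)) hadd' hE' with ⟨j, hj⟩ | ⟨g, hg⟩
    · left
      let f : Fin 3 → ι := ![i, c 0, j]
      have hf : Function.Surjective f := by
        intro k
        obtain ⟨x, rfl⟩ := hsurj k
        rcases lt_trichotomy x 0 with hx | rfl | hx
        · refine ⟨2, ?_⟩
          have := hj (-x) (by linarith)
          rw [neg_neg] at this
          rw [this]; rfl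
        · exact ⟨1, rfl⟩
        · refine ⟨0, ?_⟩
          rw [hi x hx]; rfl
      have h1 := Cardinal.mk_le_of_surjective hf
      simpa using h1
    · right
      exact hcont ⟨fun a => -(g a), fun a b hab => hg a b hab⟩
  · right
    exact hcont h

end Pool.Agent.Results.MP_be984c_lc.AnalyticPartition
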